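import Mathlib
open Set Filter Topology Complex
noncomputable section
namespace Pool.Agent.Q68.GW

/-- The angle with cosine `1/3`. -/
def th : ℝ := Real.arccos (1 / 3)

/-- The rotation number. -/
def al : ℝ := th / (2 * Real.pi)

lemma cos_th : Real.cos th = 1 / 3 := Real.cos_arccos (by norm_num) (by norm_num)

lemma th_pos : 0 < th := Real.arccos_pos.2 (by norm_num)

lemma al_pos : 0 < al := by
  unfold al
  have := th_pos
  have := Real.pi_pos
  positivity

lemma al_irr : Irrational al := by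
  rintro ⟨q, hq⟩
  have h1 : ∃ r : ℚ, th = r * Real.pi := by
    refine ⟨2 * q, ?_⟩
    push_cast
    rw [hq, al]
    field_simp
  have h2 := niven h1 ⟨1 / 3, by rw [cos_th]; norm_num⟩
  rw [cos_th] at h2
  norm_num at h2

/-- The step `e^{-iθ}`. -/
def w : ℂ := ⟨1 / 3, -(2 * √2 / 3)⟩

/-- The inverse step `e^{iθ}`. -/
def wb : ℂ := ⟨1 / 3, 2 * √2 / 3⟩

lemma r2 : √2 * √2 = (2:ℝ) := Real.mul_self_sqrt (by norm_num)

lemma w_wb : w * wb = 1 := by
  apply Complex.ext
  · simp only [w, wb, mul_re, one_re]; nlinarith [r2]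
  · simp only [w, wb, mul_im, one_im]; ring

lemma sin_th : Real.sin th = 2 * √2 / 3 := by
  have h1 : 0 ≤ Real.sin th := Real.sin_nonneg_of_nonneg_of_le_pi th_pos.le (Real.arccos_le_pi _)
  have h2 := Real.sin_sq_add_cos_sq th
  rw [cos_th] at h2
  have h3 : 0 ≤ 2 * √2 / 3 := by positivity
  have h4 : (2 * √2 / 3) ^ 2 = 8 / 9 := by nlinarith [r2]
  nlinarith

lemma exp_th : cexp (th * I) = wb := by
  rw [exp_mul_I, ← ofReal_cos, ← ofReal_sin, cos_th, sin_th]
  apply Complex.ext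
  · simp [wb]
  · simp [wb]

lemma norm_w : ‖w‖ = 1 := by
  rw [← sq_eq_sq₀ (norm_nonneg _) zero_le_one, Complex.sq_norm, normSq_apply]
  simp only [w]
  nlinarith [r2]

lemma norm_wb : ‖wb‖ = 1 := by
  rw [← sq_eq_sq₀ (norm_nonneg _) zero_le_one, Complex.sq_norm, normSq_apply]
  simp only [wb]
  nlinarith [r2]

lemma w_wb_pow (n : ℕ) : w ^ n * wb ^ n = 1 := by rw [← mul_pow, w_wb, one_pow]

lemma wb_pow (n : ℕ) : wb ^ n = cexp ((n * th : ℝ) * I) := by
  rw [← exp_th, ← Complex.exp_nat_mul]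
  congr 1
  push_cast
  ring

lemma wb_pow_ne {n : ℕ} (hn : 1 ≤ n) : wb ^ n ≠ 1 := by
  rw [wb_pow, Ne, Complex.exp_eq_one_iff]
  rintro ⟨m, hm⟩
  have h1 : ((n:ℝ) * th : ℝ) = m * (2 * Real.pi) := by
    have h2 : (((n:ℝ) * th : ℝ) : ℂ) * I = ((m * (2 * Real.pi) : ℝ) : ℂ) * I := by
      rw [hm]; push_cast; ring
    exact_mod_cast mul_right_cancel₀ I_ne_zero h2
  refine al_irr ⟨m / n, ?_⟩
  have hn' : (n:ℝ) ≠ 0 := by positivity
  have hpi := Real.pi_ne_zero
  unfold al
  push_cast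
  field_simp
  linarith

lemma wb_re_lt {n : ℕ} (hn : 1 ≤ n) : (wb ^ n).re < 1 := by
  have h1 : ‖wb ^ n‖ = 1 := by rw [norm_pow, norm_wb, one_pow]
  refine lt_of_le_of_ne ((re_le_norm _).trans h1.le) fun h2 => wb_pow_ne hn ?_
  have h3 : (wb ^ n).re ^ 2 + (wb ^ n).im ^ 2 = 1 := by
    have := Complex.sq_norm (wb ^ n)
    rw [h1, normSq_apply] at this
    nlinarith
  apply Complex.ext
  · exact h2
  · rw [h2] at h3
    have : (wb ^ n).im ^ 2 = 0 := by linarith
    simpa using this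

/-- Density of the powers. -/
lemma wb_dense {y : ℂ} (hy : ‖y‖ = 1) {η : ℝ} (hη : 0 < η) (K : ℕ) :
    ∃ k, K ≤ k ∧ ‖wb ^ k - y‖ < η := by
  have h1 : DenseRange (fun n : ℤ => n • ((al : ℝ) : AddCircle (1:ℝ))) :=
    AddCircle.denseRange_zsmul_coe_iff.2 (by rw [div_one]; exact al_irr)
  have h2 : DenseRange (fun n : ℤ => (Circle.exp th) ^ n) := by
    have h3 : DenseRange (AddCircle.toCircle (T := (1:ℝ))) := by
      have h0 := (AddCircle.homeomorphCircle (T := (1:ℝ)) (one_ne_zero)).surjective.denseRange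
      have e0 : (AddCircle.homeomorphCircle (T := (1:ℝ)) (one_ne_zero) : AddCircle (1:ℝ) → Circle)
          = AddCircle.toCircle := by
        funext x
        exact AddCircle.homeomorphCircle_apply _ x
      rwa [e0] at h0
    have h4 := h3.comp h1 AddCircle.continuous_toCircle
    have e : (AddCircle.toCircle (T := (1:ℝ))) ∘ (fun n : ℤ => n • ((al : ℝ) : AddCircle (1:ℝ)))
        = fun n : ℤ => (Circle.exp th) ^ n := by
      funext n
      simp only [Function.comp]
      rw [AddCircle.toCircle_zsmul, AddCircle.toCircle_apply_mk]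
      congr 2
      unfold al
      have := Real.pi_ne_zero
      field_simp
    rwa [e] at h4
  obtain ⟨Y, hY⟩ : ∃ Y : Circle, (Y : ℂ) = y := ⟨⟨y, mem_sphere_zero_iff_norm.2 hy⟩, rfl⟩
  have h5 := ((mapClusterPt_atTop_pow_tfae Y (Circle.exp th)).out 0 3).2 (h2 _)
  rw [mapClusterPt_iff_frequently] at h5
  have h6 := h5 _ (Metric.ball_mem_nhds _ hη)
  obtain ⟨k, hk1, hk2⟩ := (h6.and_eventually (eventually_ge_atTop K)).exists
  refine ⟨k, hk2, ?_⟩
  have hk3 : dist ((Circle.exp th ^ k : Circle) : ℂ) (Y : ℂ) < η := hk1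
  rw [dist_eq_norm] at hk3
  have e : (((Circle.exp th) ^ k : Circle) : ℂ) = wb ^ k := by
    rw [Circle.coe_pow, Circle.coe_exp, exp_th]
  rw [e, hY] at hk3
  exact hk3

/-- The side of the discontinuity line. -/
def sg (u : ℂ) : ℝ := if 0 < u.re then 1 else -1

/-- The piecewise rotation. -/
def T (u : ℂ) : ℂ := w * (u - sg u)

lemma sg_of {s : ℝ} (hs : s = 1 ∨ s = -1) {u : ℂ} (h : 0 < s * u.re) : sg u = s ∧ u.re ≠ 0 := by
  unfold sg
  rcases hs with rfl | rfl
  · rw [one_mul] at h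
    exact ⟨by rw [if_pos h], h.ne'⟩
  · have h1 : u.re < 0 := by linarith
    exact ⟨by rw [if_neg (by linarith)], h1.ne⟩

lemma sg_cases (u : ℂ) : sg u = 1 ∨ sg u = -1 := by
  unfold sg; split_ifs <;> simp

lemma sg_pos {u : ℂ} (h : u.re ≠ 0) : 0 < sg u * u.re := by
  unfold sg
  split_ifs with h1
  · linarith
  · have : u.re < 0 := lt_of_le_of_ne (not_lt.1 h1) h
    linarith

/-- Local constancy of the code. -/
lemma loc (n : ℕ) (x : ℂ) (hx : ∀ k < n, (T^[k] x).re ≠ 0) : ∃ δ > 0, ∀ u, ‖u - x‖ ≤ δ →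
    (∀ k < n, (T^[k] u).re ≠ 0 ∧ sg (T^[k] u) = sg (T^[k] x)) ∧
      T^[n] u = T^[n] x + w ^ n * (u - x) := by
  induction n with
  | zero => exact ⟨1, one_pos, fun u _ => ⟨fun k hk => absurd hk (by omega), by simp⟩⟩
  | succ n ih =>
    obtain ⟨δ, hδ, h⟩ := ih fun k hk => hx k (by omega)
    have hy := hx n (by omega)
    have hy' : 0 < |(T^[n] x).re| := abs_pos.2 hy
    refine ⟨min δ (|(T^[n] x).re| / 2), lt_min hδ (by linarith), fun u hu => ?_⟩
    obtain ⟨h1, h2⟩ := h u (hu.trans (min_le_left _ _))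
    have h3 : ‖u - x‖ ≤ |(T^[n] x).re| / 2 := hu.trans (min_le_right _ _)
    have h4 : |(T^[n] u).re - (T^[n] x).re| ≤ |(T^[n] x).re| / 2 := by
      have : (T^[n] u).re - (T^[n] x).re = (w ^ n * (u - x)).re := by rw [h2, add_re]; ring
      rw [this]
      refine (abs_re_le_norm _).trans ?_
      rw [norm_mul, norm_pow, norm_w, one_pow, one_mul]
      exact h3
    have h5 : 0 < sg (T^[n] x) * (T^[n] u).re := by
      have h6 := sg_pos hy
      rw [abs_le] at h4
      rcases sg_cases (T^[n] x) with h7 | h7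
      · rw [h7] at h6 ⊢
        rw [abs_of_pos (by linarith)] at h4
        linarith [h4.1]
      · rw [h7] at h6 ⊢
        rw [abs_of_neg (by linarith)] at h4
        linarith [h4.2]
    obtain ⟨h6, h7⟩ := sg_of (sg_cases _) h5
    refine ⟨fun k hk => ?_, ?_⟩
    · rcases Nat.lt_succ_iff_lt_or_eq.1 hk with h8 | rfl
      · exact h1 k h8
      · exact ⟨h7, h6⟩
    · rw [Function.iterate_succ_apply', Function.iterate_succ_apply']
      show w * (T^[n] u - sg (T^[n] u)) = w * (T^[n] x - sg (T^[n] x)) + w ^ (n + 1) * (u - x)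
      rw [h6, h2, pow_succ]
      ring

/-- The centre of the first disc. -/
def c : ℂ := ⟨1 / 2, √2 / 2⟩

/-- The point of tangency. -/
def t : ℂ := ⟨0, √2 / 2⟩

lemma c_fix : w * (c - 1) = c := by
  apply Complex.ext
  · simp only [w, c, mul_re, sub_re, sub_im, one_re, one_im]; nlinarith [r2]
  · simp only [w, c, mul_im, sub_re, sub_im, one_re, one_im]; nlinarith [r2]

lemma c_t : c - 1 / 2 = t := by
  apply Complex.ext
  · simp [c, t]
  · simp [c, t]

/-- The image of the point of tangency from the other side. -/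
def u1 : ℂ := ⟨1, -(√2 / 2)⟩

lemma u1_eq : w * (t + 1) = u1 := by
  apply Complex.ext
  · simp only [w, t, u1, mul_re, add_re, add_im, one_re, one_im]; nlinarith [r2]
  · simp only [w, t, u1, mul_im, add_re, add_im, one_re, one_im]; nlinarith [r2]

/-- The centre of the pulled back circle. -/
def ka : ℂ := ⟨1 / 6, √2 / 3⟩

lemma ka_eq : w * (u1 - 1) + c = -(w * w * ka) := by
  apply Complex.ext
  · simp only [w, u1, c, ka, mul_re, mul_im, add_re, sub_re, sub_im, one_re, one_im,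
      neg_re]
    nlinarith [r2]
  · simp only [w, u1, c, ka, mul_re, mul_im, add_im, sub_re, sub_im, one_re, one_im,
      neg_im]
    linear_combination (-4 / 27 * √2) * r2

lemma norm_ka : ‖ka‖ = 1 / 2 := by
  rw [← sq_eq_sq₀ (norm_nonneg _) (by norm_num), Complex.sq_norm, normSq_apply]
  simp only [ka]
  nlinarith [r2]

/-- Small displacements which stay on the image circle. -/
lemma zeta {η : ℝ} (hη : 0 < η) : ∃ z : ℂ, z.re < 0 ∧ ‖z‖ < η ∧
    ‖w * (u1 - 1 + w * z) + c‖ = 1 / 2 := by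
  -- the angle
  obtain ⟨δ, hδ0, hδ1, hδη⟩ : ∃ δ : ℝ, 0 < δ ∧ δ ≤ 1 ∧ δ < η := by
    refine ⟨min 1 (η / 2), lt_min one_pos (by linarith), min_le_left _ _, ?_⟩
    have := min_le_right 1 (η / 2)
    linarith
  have hs : 0 < Real.sin δ := Real.sin_pos_of_pos_of_lt_pi hδ0 (by linarith [Real.pi_gt_three])
  have hc : 0 < Real.cos δ := Real.cos_pos_of_mem_Ioo ⟨by linarith [Real.pi_gt_three],
    by linarith [Real.pi_gt_three]⟩
  have hsc := Real.sin_sq_add_cos_sq δ
  have hs1 : Real.sin δ ≤ 1 := Real.sin_le_one _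
  have hc1 : Real.cos δ ≤ 1 := Real.cos_le_one _
  have h1 : 1 - Real.cos δ ≤ Real.sin δ := by nlinarith
  refine ⟨ka * (1 - cexp (-(δ * I))), ?_, ?_, ?_⟩
  · have e1 : cexp (-(δ * I)) = ⟨Real.cos δ, -Real.sin δ⟩ := by
      rw [show -((δ:ℂ) * I) = ((-δ : ℝ) : ℂ) * I by push_cast; ring, exp_mul_I, ← ofReal_cos,
        ← ofReal_sin, Real.cos_neg, Real.sin_neg]
      apply Complex.ext <;> simp [Complex.cos_ofReal_re, Complex.sin_ofReal_re]
    rw [e1]
    simp only [ka, mul_re, sub_re, sub_im, one_re, one_im]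
    have h2 : 1 < √2 := by
      rw [show (1:ℝ) = √1 by simp]
      exact Real.sqrt_lt_sqrt (by norm_num) (by norm_num)
    nlinarith
  · rw [norm_mul, norm_ka]
    have h2 : ‖(1:ℂ) - cexp (-(δ * I))‖ ≤ δ := by
      have h3 := Real.norm_exp_I_mul_ofReal_sub_one_le (x := -δ)
      rw [norm_sub_rev]
      rw [show -((δ:ℂ) * I) = I * ((-δ : ℝ) : ℂ) by push_cast; ring]
      refine h3.trans ?_
      rw [Real.norm_eq_abs, abs_neg, abs_of_pos hδ0]
    linarith
  · have e1 : w * (u1 - 1 + w * (ka * (1 - cexp (-(δ * I))))) + c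
        = (w * (u1 - 1) + c) + w * w * (ka * (1 - cexp (-(δ * I)))) := by ring
    rw [e1, ka_eq]
    have e2 : -(w * w * ka) + w * w * (ka * (1 - cexp (-(δ * I))))
        = -(w * w * ka * cexp (-(δ * I))) := by ring
    rw [e2, norm_neg, norm_mul, norm_mul, norm_mul, norm_w, norm_ka]
    rw [show -((δ:ℂ) * I) = ((-δ : ℝ) : ℂ) * I by push_cast; ring, Complex.norm_exp_ofReal_mul_I]
    norm_num

end Pool.Agent.Q68.GW
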