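import Pool.Agent.Q68.GW.Base
open Set Filter Topology Complex
noncomputable section
namespace Pool.Agent.Q68.GW

/-- The states of the construction. -/
structure St where
  x : ℂ
  r : ℝ
  n : ℕ
  s : ℝ
  hr : 0 < r
  hs : s = 1 ∨ s = -1
  hcode : ∀ u, ‖u - x‖ ≤ r → ∀ k < n, (T^[k] u).re ≠ 0 ∧ sg (T^[k] u) = sg (T^[k] x)
  hT : ∀ u, ‖u - x‖ ≤ r → T^[n] u = T^[n] x + w ^ n * (u - x)
  hcirc : ‖T^[n] x - s * c‖ = 1 / 2

lemma norm_s {s : ℝ} (hs : s = 1 ∨ s = -1) : ‖(s : ℂ)‖ = 1 := by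
  rcases hs with rfl | rfl <;> simp

lemma s_sq {s : ℝ} (hs : s = 1 ∨ s = -1) : (s : ℂ) * s = 1 := by
  rcases hs with rfl | rfl <;> simp

/-- A positive lower bound for finitely many numbers. -/
lemma lower (k : ℕ) : ∃ δ > 0, ∀ l, 1 ≤ l → l ≤ k → δ < (1 - (wb ^ l).re) / 2 := by
  induction k with
  | zero => exact ⟨1, one_pos, fun l h1 h2 => absurd h1 (by omega)⟩
  | succ k ih =>
    obtain ⟨δ, hδ, h⟩ := ih
    have h1 := wb_re_lt (n := k + 1) (by omega)
    refine ⟨min δ ((1 - (wb ^ (k + 1)).re) / 4), lt_min hδ (by linarith), fun l h2 h3 => ?_⟩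
    rcases Nat.lt_or_ge l (k + 1) with h4 | h4
    · exact lt_of_le_of_lt (min_le_left _ _) (h l h2 (by omega))
    · obtain rfl : l = k + 1 := by omega
      exact lt_of_le_of_lt (min_le_right _ _) (by linarith)

/-- **One step.** -/
lemma step (S : St) (K : ℕ) : ∃ S' : St,
    (∀ u, ‖u - S'.x‖ ≤ S'.r → ‖u - S.x‖ ≤ S.r) ∧ ∃ k, K ≤ k ∧ S.n + k < S'.n ∧
      (∀ j < k, sg (T^[S.n + j] S'.x) = S.s) ∧ sg (T^[S.n + k] S'.x) = -S.s := by
  obtain ⟨x, r, n, s, hr, hs, hcode, hT, hcirc⟩ := S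
  simp only
  have hss := s_sq hs
  have hsn := norm_s hs
  have hsr : s * s = 1 := by rcases hs with rfl | rfl <;> norm_num
  obtain ⟨y, hy⟩ : ∃ y, y = T^[n] x := ⟨_, rfl⟩
  rw [← hy] at hcirc
  -- the time
  have hY : ‖(-2 * s * (y - s * c) : ℂ)‖ = 1 := by
    rw [norm_mul, norm_mul, hsn, hcirc]; norm_num
  obtain ⟨k, hk1, hk2⟩ := wb_dense hY hr K
  -- the small displacement
  obtain ⟨δ, hδ, hδl⟩ := lower k
  obtain ⟨z, hz1, hz2, hz3⟩ := zeta (η := min (min (r / 2) (1 / 2)) δ)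
    (lt_min (lt_min (by linarith) (by norm_num)) hδ)
  have hz4 : ‖z‖ < r / 2 := lt_of_lt_of_le hz2 ((min_le_left _ _).trans (min_le_left _ _))
  have hz5 : ‖z‖ < 1 / 2 := lt_of_lt_of_le hz2 ((min_le_left _ _).trans (min_le_right _ _))
  have hz6 : ‖z‖ < δ := lt_of_lt_of_le hz2 (min_le_right _ _)
  -- the new point
  obtain ⟨y', hy'⟩ : ∃ y' : ℂ, y' = s * c + s * wb ^ k * (z - 1 / 2) := ⟨_, rfl⟩
  obtain ⟨x', hx'⟩ : ∃ x' : ℂ, x' = x + wb ^ n * (y' - y) := ⟨_, rfl⟩
  have hyy : ‖y' - y‖ < r := by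
    have e : y' - y = -(s / 2) * (wb ^ k - -2 * s * (y - s * c)) + s * wb ^ k * z := by
      rw [hy']
      linear_combination (y - s * c) * hss
    rw [e]
    refine lt_of_le_of_lt (norm_add_le _ _) ?_
    rw [norm_mul, norm_mul, norm_mul, norm_neg, norm_div, hsn, norm_pow, norm_wb, one_pow]
    have : ‖(2:ℂ)‖ = 2 := by norm_num
    rw [this]
    linarith
  have hxx : ‖x' - x‖ < r := by
    rw [hx', add_sub_cancel_left, norm_mul, norm_pow, norm_wb, one_pow, one_mul]
    exact hyy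
  have hTn : T^[n] x' = y' := by
    rw [hT x' hxx.le, hx', ← hy, add_sub_cancel_left, ← mul_assoc, w_wb_pow]
    ring
  -- the rotation
  have hrot : ∀ j, j ≤ k → T^[n + j] x' = s * c + s * (wb ^ (k - j)) * (z - 1 / 2) ∧
      ∀ i < j, sg (T^[n + i] x') = s ∧ (T^[n + i] x').re ≠ 0 := by
    intro j
    induction j with
    | zero => exact fun _ => ⟨by rw [add_zero, Nat.sub_zero, hTn, hy'], fun i hi => absurd hi (by omega)⟩
    | succ j ih =>
      intro hj
      obtain ⟨h1, h2⟩ := ih (by omega)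
      have hpos : 0 < s * (T^[n + j] x').re := by
        have e : s * (T^[n + j] x').re = (s * T^[n + j] x' : ℂ).re := by
          rw [re_ofReal_mul]
        rw [e, h1]
        have e2 : (s * (s * c + s * wb ^ (k - j) * (z - 1 / 2)) : ℂ)
            = c + wb ^ (k - j) * (z - 1 / 2) := by
          linear_combination (c + wb ^ (k - j) * (z - 1 / 2)) * hss
        rw [e2]
        have e3 : (c + wb ^ (k - j) * (z - 1 / 2)).re
            = (1 - (wb ^ (k - j)).re) / 2 + (wb ^ (k - j) * z).re := by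
          rw [mul_sub, add_re, sub_re]
          have : (wb ^ (k - j) * (1 / 2)).re = (wb ^ (k - j)).re / 2 := by
            rw [mul_re]; simp; ring
          rw [this]
          simp only [c]
          ring
        rw [e3]
        have h3 := hδl (k - j) (by omega) (by omega)
        have h4 : |(wb ^ (k - j) * z).re| ≤ ‖z‖ := by
          refine (abs_re_le_norm _).trans ?_
          rw [norm_mul, norm_pow, norm_wb, one_pow, one_mul]
        have h5 := neg_abs_le (wb ^ (k - j) * z).re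
        linarith
      obtain ⟨h3, h4⟩ := sg_of hs hpos
      refine ⟨?_, fun i hi => ?_⟩
      · rw [← add_assoc, Function.iterate_succ_apply']
        show w * (T^[n + j] x' - sg (T^[n + j] x')) = _
        rw [h3, h1]
        have e : wb ^ (k - j) = wb * wb ^ (k - (j + 1)) := by
          rw [← pow_succ']; congr 1; omega
        rw [e]
        have h5 := c_fix
        have h6 := w_wb
        linear_combination (s:ℂ) * h5 + (s * wb ^ (k - (j + 1)) * (z - 1 / 2) : ℂ) * h6
      · rcases Nat.lt_succ_iff_lt_or_eq.1 hi with h5 | rfl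
        · exact h2 i h5
        · exact ⟨h3, h4⟩
  obtain ⟨hk, hrun⟩ := hrot k le_rfl
  rw [Nat.sub_self, pow_zero, mul_one] at hk
  have hk' : T^[n + k] x' = s * (t + z) := by
    rw [hk, ← c_t]; ring
  have hpos1 : 0 < (-s) * (T^[n + k] x').re := by
    rw [hk', re_ofReal_mul, add_re]
    have : t.re = 0 := rfl
    rw [this]
    nlinarith
  have hs' : -s = 1 ∨ -s = -1 := by rcases hs with rfl | rfl <;> simp
  obtain ⟨g1, g2⟩ := sg_of hs' hpos1
  -- the first image
  have hk1' : T^[n + k + 1] x' = s * (u1 + w * z) := by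
    rw [Function.iterate_succ_apply']
    show w * (T^[n + k] x' - sg (T^[n + k] x')) = _
    rw [g1, hk', ← u1_eq]
    push_cast
    ring
  have hpos2 : 0 < s * (T^[n + k + 1] x').re := by
    rw [hk1', re_ofReal_mul, add_re]
    have e1 : u1.re = 1 := rfl
    have h4 : |(w * z).re| ≤ ‖z‖ := by
      refine (abs_re_le_norm _).trans ?_
      rw [norm_mul, norm_w, one_mul]
    have h5 := neg_abs_le (w * z).re
    rw [e1, ← mul_assoc, hsr]
    linarith
  obtain ⟨g3, g4⟩ := sg_of hs hpos2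
  have hk2' : T^[n + k + 2] x' = s * (w * (u1 - 1 + w * z)) := by
    rw [Function.iterate_succ_apply']
    show w * (T^[n + k + 1] x' - sg (T^[n + k + 1] x')) = _
    rw [g3, hk1']
    ring
  -- the code is defined
  have hgood : ∀ i < n + k + 2, (T^[i] x').re ≠ 0 := by
    intro i hi
    rcases Nat.lt_or_ge i n with h1 | h1
    · exact (hcode x' hxx.le i h1).1
    rcases Nat.lt_or_ge i (n + k) with h2 | h2
    · obtain ⟨j, rfl⟩ := Nat.exists_eq_add_of_le h1
      exact (hrun j (by omega)).2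
    rcases Nat.lt_or_ge i (n + k + 1) with h3 | h3
    · obtain rfl : i = n + k := by omega
      exact g2
    · obtain rfl : i = n + k + 1 := by omega
      exact g4
  obtain ⟨δ', hδ', hloc⟩ := loc _ x' hgood
  refine ⟨⟨x', min δ' (r - ‖x' - x‖), n + k + 2, -s, lt_min hδ' (by linarith), hs',
    fun u hu => (hloc u (hu.trans (min_le_left _ _))).1,
    fun u hu => (hloc u (hu.trans (min_le_left _ _))).2, ?_⟩, ?_, k, hk1, ?_, ?_, ?_⟩
  · rw [hk2']
    have e : (s * (w * (u1 - 1 + w * z)) - ((-s : ℝ) : ℂ) * c : ℂ)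
        = s * (w * (u1 - 1 + w * z) + c) := by push_cast; ring
    rw [e, norm_mul, hsn, hz3, one_mul]
  · intro u hu
    have h1 : ‖u - x'‖ ≤ r - ‖x' - x‖ := hu.trans (min_le_right _ _)
    calc ‖u - x‖ = ‖(u - x') + (x' - x)‖ := by rw [sub_add_sub_cancel]
      _ ≤ ‖u - x'‖ + ‖x' - x‖ := norm_add_le _ _
      _ ≤ r := by linarith
  · show n + k < n + k + 2
    omega
  · exact fun j hj => (hrun j hj).1
  · exact g1

/-- The first state. -/
def St0 : St where
  x := c - 1 / 2
  r := 1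
  n := 0
  s := 1
  hr := one_pos
  hs := Or.inl rfl
  hcode := fun u _ k hk => absurd hk (by omega)
  hT := fun u _ => by simp
  hcirc := by
    show ‖(c - 1 / 2) - ((1:ℝ):ℂ) * c‖ = 1 / 2
    have : (c - 1 / 2) - ((1:ℝ):ℂ) * c = -(1 / 2) := by push_cast; ring
    rw [this]; norm_num

/-- The sequence of states. -/
def seq : ℕ → St
  | 0 => St0
  | j + 1 => (step (seq j) (j + 1)).choose

lemma seq_spec (j : ℕ) : (∀ u, ‖u - (seq (j + 1)).x‖ ≤ (seq (j + 1)).r →
    ‖u - (seq j).x‖ ≤ (seq j).r) ∧ ∃ k, j + 1 ≤ k ∧ (seq j).n + k < (seq (j + 1)).n ∧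
      (∀ i < k, sg (T^[(seq j).n + i] (seq (j + 1)).x) = (seq j).s) ∧
        sg (T^[(seq j).n + k] (seq (j + 1)).x) = -(seq j).s :=
  (step (seq j) (j + 1)).choose_spec

/-- **An aperiodic admissible point.** -/
theorem exists_aperiodic : ∃ u : ℂ, (∀ k, (T^[k] u).re ≠ 0) ∧
    ¬ ∃ N p, 1 ≤ p ∧ ∀ n, N ≤ n → sg (T^[n + p] u) = sg (T^[n] u) := by
  obtain ⟨u, hu⟩ : (⋂ j, Metric.closedBall (seq j).x (seq j).r).Nonempty := by
    refine IsCompact.nonempty_iInter_of_sequence_nonempty_isCompact_isClosed _ ?_ ?_ ?_ ?_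
    · intro j u hu
      have h := (seq_spec j).1 u
      rw [Metric.mem_closedBall, dist_eq_norm] at hu ⊢
      exact h hu
    · exact fun j => ⟨(seq j).x, Metric.mem_closedBall_self (seq j).hr.le⟩
    · exact isCompact_closedBall _ _
    · exact fun j => Metric.isClosed_closedBall
  have hu' : ∀ j, ‖u - (seq j).x‖ ≤ (seq j).r := by
    intro j
    have := mem_iInter.1 hu j
    rwa [Metric.mem_closedBall, dist_eq_norm] at this
  have hn : ∀ j, j ≤ (seq j).n := by
    intro j
    induction j with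
    | zero => exact Nat.zero_le _
    | succ j ih =>
      obtain ⟨-, k, h1, h2, -⟩ := seq_spec j
      omega
  refine ⟨u, fun k => ?_, ?_⟩
  · exact ((seq (k + 1)).hcode u (hu' _) k (by have := hn (k + 1); omega)).1
  · rintro ⟨N, p, hp, hper⟩
    obtain ⟨-, k, h1, h2, h3, h4⟩ := seq_spec (N + p)
    have hcode : ∀ i, i ≤ k → sg (T^[(seq (N + p)).n + i] u)
        = sg (T^[(seq (N + p)).n + i] (seq (N + p + 1)).x) := fun i hi =>
      ((seq (N + p + 1)).hcode u (hu' _) _ (by omega)).2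
    have h5 : N ≤ (seq (N + p)).n := by have := hn (N + p); omega
    have h6 := hper ((seq (N + p)).n + (k - p)) (by omega)
    rw [show (seq (N + p)).n + (k - p) + p = (seq (N + p)).n + k by omega, hcode k le_rfl,
      hcode (k - p) (by omega), h4, h3 (k - p) (by omega)] at h6
    rcases (seq (N + p)).hs with h7 | h7 <;> rw [h7] at h6 <;> norm_num at h6

end Pool.Agent.Q68.GW
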